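import Pool.Agent.Helper23.MC.Goals3

/-!
# Project MC (MP_69be96_nt), packet MC-ZS: the mean over `ZZ` of a power of `m/φ(m)`
-/

set_option autoImplicit false

open Finset Filter Topology

open scoped Classical

namespace Pool.Agent.Helper41.MC

open Pool.Agent.Helper23.MC

/-- `(1 - 1/p)^(-K) - 1`. -/
noncomputable def gk (K p : ℕ) : ℝ := ((p : ℝ) / ((p : ℝ) - 1)) ^ K - 1

theorem one_add_pow_le (K : ℕ) {x : ℝ} (h0 : 0 ≤ x) (h1 : x ≤ 1) :
    (1 + x) ^ K ≤ 1 + (2 ^ K - 1) * x := by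
  induction K with
  | zero => simp
  | succ K ih =>
    have h2 : (0 : ℝ) ≤ 2 ^ K - 1 := sub_nonneg.2 (one_le_pow₀ (by norm_num))
    have h3 : (1 + x) ^ (K + 1) ≤ (1 + (2 ^ K - 1) * x) * (1 + x) := by
      rw [pow_succ]
      exact mul_le_mul_of_nonneg_right ih (by linarith)
    have h4 : (2 ^ K - 1) * x * x ≤ (2 ^ K - 1) * x * 1 :=
      mul_le_mul_of_nonneg_left h1 (mul_nonneg h2 h0)
    rw [pow_succ (2 : ℝ) K]
    nlinarith [h3, h4]

theorem ratio_eq {p : ℕ} (hp : 2 ≤ p) : (p : ℝ) / ((p : ℝ) - 1) = 1 + 1 / ((p : ℝ) - 1) := by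
  have h : (2 : ℝ) ≤ p := by exact_mod_cast hp
  have h' : (p : ℝ) - 1 ≠ 0 := by linarith
  field_simp
  ring

theorem gk_nonneg (K : ℕ) {p : ℕ} (hp : 2 ≤ p) : 0 ≤ gk K p := by
  have h : (2 : ℝ) ≤ p := by exact_mod_cast hp
  unfold gk
  rw [ratio_eq hp]
  have h1 : (0 : ℝ) ≤ 1 / ((p : ℝ) - 1) := by
    apply div_nonneg zero_le_one
    linarith
  have h2 : (1 : ℝ) ≤ (1 + 1 / ((p : ℝ) - 1)) ^ K := one_le_pow₀ (by linarith)
  linarith

theorem inv_sub_le {p : ℕ} (hp : 2 ≤ p) : 1 / ((p : ℝ) - 1) ≤ 2 / p := by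
  have h : (2 : ℝ) ≤ p := by exact_mod_cast hp
  rw [div_le_div_iff₀ (by linarith) (by linarith)]
  linarith

theorem gk_le (K : ℕ) {p : ℕ} (hp : 2 ≤ p) : gk K p ≤ 2 ^ (K + 1) / p := by
  have h : (2 : ℝ) ≤ p := by exact_mod_cast hp
  have h1 : (0 : ℝ) ≤ 1 / ((p : ℝ) - 1) := div_nonneg zero_le_one (by linarith)
  have h2 : 1 / ((p : ℝ) - 1) ≤ 1 := by
    rw [div_le_one (by linarith)]
    linarith
  have h3 := one_add_pow_le K h1 h2
  have h4 : gk K p ≤ (2 ^ K - 1) * (1 / ((p : ℝ) - 1)) := by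
    unfold gk
    rw [ratio_eq hp]
    linarith
  have h5 : (2 ^ K - 1) * (1 / ((p : ℝ) - 1)) ≤ 2 ^ K * (2 / p) := by
    apply mul_le_mul (by linarith) (inv_sub_le hp) h1 (by positivity)
  calc gk K p ≤ 2 ^ K * (2 / p) := h4.trans h5
    _ = 2 ^ (K + 1) / p := by rw [pow_succ]; ring

/-- `(m/φ(m))^K = ∑_s ∏_{p ∈ s} g(p)`. -/
theorem ratio_pow (K : ℕ) {m : ℕ} (hm : m ≠ 0) :
    ((m : ℝ) / (Nat.totient m : ℝ)) ^ K = ∑ s ∈ m.primeFactors.powerset, ∏ p ∈ s, gk K p := by
  have h1 : ((m : ℝ) / (Nat.totient m : ℝ)) = ∏ p ∈ m.primeFactors, (p : ℝ) / ((p : ℝ) - 1) := by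
    have h2 := Nat.totient_mul_prod_primeFactors m
    have h3 : (Nat.totient m : ℝ) * ∏ p ∈ m.primeFactors, (p : ℝ) =
        m * ∏ p ∈ m.primeFactors, ((p : ℝ) - 1) := by
      have h4 : ((Nat.totient m * ∏ p ∈ m.primeFactors, p : ℕ) : ℝ) =
        ((m * ∏ p ∈ m.primeFactors, (p - 1) : ℕ) : ℝ) := by rw [h2]
      rw [Nat.cast_mul, Nat.cast_mul, Nat.cast_prod, Nat.cast_prod] at h4
      rw [h4]
      congr 1
      refine Finset.prod_congr rfl fun p hp => ?_
      have h5 := (Nat.prime_of_mem_primeFactors hp).one_lt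
      rw [Nat.cast_sub h5.le, Nat.cast_one]
    have h6 : (Nat.totient m : ℝ) ≠ 0 := by
      have := Nat.totient_pos.2 (Nat.pos_of_ne_zero hm)
      exact_mod_cast this.ne'
    have h7 : ∏ p ∈ m.primeFactors, ((p : ℝ) - 1) ≠ 0 := by
      refine Finset.prod_ne_zero_iff.2 fun p hp => ?_
      have h5 := (Nat.prime_of_mem_primeFactors hp).one_lt
      have h8 : (1 : ℝ) < p := by exact_mod_cast h5
      linarith
    rw [Finset.prod_div_distrib, div_eq_div_iff h6 h7, ← h3]
    ring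
  rw [h1, ← Finset.prod_pow, ← Finset.prod_one_add]
  refine Finset.prod_congr rfl fun p hp => ?_
  unfold gk
  ring

/-- `∑ n^(-3/2)`. -/
noncomputable def Bc : ℝ := ∑' n : ℕ, 1 / (n : ℝ) ^ (3 / 2 : ℝ)

theorem sum_le_Bc (P : Finset ℕ) : ∑ p ∈ P, 1 / ((p : ℝ) * Real.sqrt p) ≤ Bc := by
  have hs : Summable fun n : ℕ => 1 / (n : ℝ) ^ (3 / 2 : ℝ) :=
    Real.summable_one_div_nat_rpow.2 (by norm_num)
  have h1 : ∀ n : ℕ, 1 / ((n : ℝ) * Real.sqrt n) = 1 / (n : ℝ) ^ (3 / 2 : ℝ) := by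
    intro n
    congr 1
    rcases Nat.eq_zero_or_pos n with h | h
    · subst h
      rw [Nat.cast_zero, zero_mul, Real.zero_rpow (by norm_num)]
    · have h' : (0 : ℝ) < n := by exact_mod_cast h
      rw [Real.sqrt_eq_rpow, show (3 / 2 : ℝ) = 1 + 1 / 2 by norm_num, Real.rpow_add h',
        Real.rpow_one]
  rw [Finset.sum_congr rfl fun p _ => h1 p]
  exact hs.sum_le_tsum P fun n _ => by positivity

theorem Bc_nonneg : 0 ≤ Bc := by
  have := sum_le_Bc ∅
  simpa using this

/-- The Euler product bound. -/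
theorem euler {P : Finset ℕ} {a : ℕ → ℝ} {A : ℝ} (h0 : ∀ p ∈ P, 0 ≤ a p)
    (hA : ∀ p ∈ P, a p ≤ A / ((p : ℝ) * Real.sqrt p)) (hA0 : 0 ≤ A) :
    ∑ s ∈ P.powerset, ∏ p ∈ s, a p ≤ Real.exp (A * Bc) := by
  rw [← Finset.prod_one_add]
  calc ∏ p ∈ P, (1 + a p) ≤ ∏ p ∈ P, Real.exp (a p) := by
        refine Finset.prod_le_prod (fun p hp => ?_) fun p hp => ?_
        · have := h0 p hp
          linarith
        · have := Real.add_one_le_exp (a p)
          linarith
    _ = Real.exp (∑ p ∈ P, a p) := (Real.exp_sum _ _).symm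
    _ ≤ Real.exp (A * Bc) := by
        apply Real.exp_le_exp.2
        calc ∑ p ∈ P, a p ≤ ∑ p ∈ P, A / ((p : ℝ) * Real.sqrt p) := Finset.sum_le_sum hA
          _ = A * ∑ p ∈ P, 1 / ((p : ℝ) * Real.sqrt p) := by
            rw [Finset.mul_sum]
            exact Finset.sum_congr rfl fun p _ => by ring
          _ ≤ A * Bc := mul_le_mul_of_nonneg_left (sum_le_Bc P) hA0

theorem sqrt_le_self' {p : ℕ} (hp : 2 ≤ p) : Real.sqrt p ≤ p := by
  have h : (2 : ℝ) ≤ p := by exact_mod_cast hp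
  rw [Real.sqrt_le_left (by linarith)]
  nlinarith

/-- `τ(e)/φ(e)` for a product of distinct primes. -/
theorem tau_phi (s : Finset ℕ) (hs : ∀ p ∈ s, p.Prime) :
    (((∏ p ∈ s, p).divisors.card : ℝ) / (Nat.totient (∏ p ∈ s, p) : ℝ)) =
      ∏ p ∈ s, (2 / ((p : ℝ) - 1)) := by
  induction s using Finset.induction_on with
  | empty => simp
  | insert q s hq ih =>
    have hqp := hs q (Finset.mem_insert_self q s)
    have hs' : ∀ p ∈ s, p.Prime := fun p hp => hs p (Finset.mem_insert_of_mem hp)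
    have hc : Nat.Coprime q (∏ p ∈ s, p) := by
      refine Nat.Coprime.prod_right fun p hp => ?_
      exact (Nat.coprime_primes hqp (hs' p hp)).2 fun h => hq (h ▸ hp)
    rw [Finset.prod_insert hq, Finset.prod_insert hq, Nat.Coprime.card_divisors_mul hc,
      Nat.totient_mul hc, hqp.divisors, Nat.totient_prime hqp,
      Finset.card_pair hqp.one_lt.ne, ← ih hs', Nat.cast_mul, Nat.cast_mul,
      Nat.cast_sub hqp.one_lt.le]
    push_cast
    rw [mul_div_mul_comm]

/-- The trivial bound for the number of `h` in a class. -/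
theorem triv (Y e h' : ℕ) (hY : h' ≤ Y) :
    ((((Icc 1 Y).filter (fun h => h ≠ h' ∧ e ∣ Nat.dist h h')).card : ℕ) : ℝ) ≤
      2 * ((Y : ℝ) / e) := by
  have hcard : (((Ioc 0 Y).filter (fun m => e ∣ m)).card : ℝ) ≤ (Y : ℝ) / e := by
    rw [Nat.Ioc_filter_dvd_card_eq_div]
    exact Nat.cast_div_le
  have h1 : (((Icc 1 Y).filter (fun h => h' < h ∧ e ∣ h - h')).card : ℝ) ≤ (Y : ℝ) / e := by
    refine le_trans ?_ hcard
    norm_cast
    refine Finset.card_le_card_of_injOn (fun h => h - h') (fun h hh => ?_) fun a ha b hb hab => ?_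
    · simp only [Finset.coe_filter, Set.mem_setOf_eq, mem_Icc, mem_Ioc] at hh ⊢
      refine ⟨⟨by omega, by omega⟩, hh.2.2⟩
    · simp only [Finset.coe_filter, Set.mem_setOf_eq, mem_Icc] at ha hb
      simp only at hab
      omega
  have h2 : (((Icc 1 Y).filter (fun h => h < h' ∧ e ∣ h' - h)).card : ℝ) ≤ (Y : ℝ) / e := by
    refine le_trans ?_ hcard
    norm_cast
    refine Finset.card_le_card_of_injOn (fun h => h' - h) (fun h hh => ?_) fun a ha b hb hab => ?_
    · simp only [Finset.coe_filter, Set.mem_setOf_eq, mem_Icc, mem_Ioc] at hh ⊢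
      refine ⟨⟨by omega, by omega⟩, hh.2.2⟩
    · simp only [Finset.coe_filter, Set.mem_setOf_eq, mem_Icc] at ha hb
      simp only at hab
      omega
  have h3 : (Icc 1 Y).filter (fun h => h ≠ h' ∧ e ∣ Nat.dist h h') ⊆
      (Icc 1 Y).filter (fun h => h' < h ∧ e ∣ h - h') ∪
        (Icc 1 Y).filter (fun h => h < h' ∧ e ∣ h' - h) := by
    intro h hh
    rw [mem_filter] at hh
    obtain ⟨hh1, hh2, hh3⟩ := hh
    rw [mem_union, mem_filter, mem_filter]
    rcases Nat.lt_or_gt_of_ne hh2 with h4 | h4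
    · right
      refine ⟨hh1, h4, ?_⟩
      rwa [Nat.dist_eq_sub_of_le h4.le] at hh3
    · left
      refine ⟨hh1, h4, ?_⟩
      rwa [Nat.dist_eq_sub_of_le_right h4.le] at hh3
  have h4 := (Finset.card_le_card h3).trans (Finset.card_union_le _ _)
  have h5 : (((Icc 1 Y).filter (fun h => h ≠ h' ∧ e ∣ Nat.dist h h')).card : ℝ) ≤
      (((Icc 1 Y).filter (fun h => h' < h ∧ e ∣ h - h')).card : ℝ) +
        (((Icc 1 Y).filter (fun h => h < h' ∧ e ∣ h' - h)).card : ℝ) := by exact_mod_cast h4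
  linarith

theorem modEq_of_dvd_dist {h h' e : ℕ} (he : e ∣ Nat.dist h h') : h ≡ h' [MOD e] := by
  rcases le_total h h' with hle | hle
  · rw [Nat.dist_eq_sub_of_le hle] at he
    exact (Nat.modEq_iff_dvd' hle).2 he
  · rw [Nat.dist_eq_sub_of_le_right hle] at he
    exact ((Nat.modEq_iff_dvd' hle).2 he).symm

/-- **StmtZS** -/
theorem zs (hZA : StmtZA) : Pool.Agent.Helper23.MC.StmtZS := by
  obtain ⟨C, hC, w1, hw1⟩ := hZA
  intro K
  set E1 : ℝ := Real.exp (2 ^ (K + 3) * Bc) with hE1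
  set E2 : ℝ := Real.exp (2 ^ (K + 1) * Bc) with hE2
  have hE1p : 1 ≤ E1 := Real.one_le_exp (mul_nonneg (by positivity) Bc_nonneg)
  have hE2p : 1 ≤ E2 := Real.one_le_exp (mul_nonneg (by positivity) Bc_nonneg)
  refine ⟨C * E1 + (1 + K) * E2 + 2 * E2, ?_, max w1 16, ?_⟩
  · have h1 : 1 ≤ C * E1 := one_le_mul_of_one_le_of_one_le hC hE1p
    have h2 : 0 ≤ (1 + K : ℝ) * E2 := by positivity
    linarith
  intro w Y t h' hw hwY hY ht2 htw htL hsm hh' Bd hBd hBdc
  have hw16 : 16 ≤ w := le_trans (le_max_right _ _) hw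
  have hww1 : w1 ≤ w := le_trans (le_max_left _ _) hw
  have hwR : (16 : ℝ) ≤ w := by exact_mod_cast hw16
  set L : ℝ := Real.log w with hL
  set LL : ℝ := Real.log L with hLL
  have hL1 : Real.exp 1 ≤ L := by
    have h1 : Real.log 16 ≤ L := Real.log_le_log (by norm_num) hwR
    have h2 : Real.log 16 = 4 * Real.log 2 := by
      rw [show (16 : ℝ) = 2 ^ 4 by norm_num, Real.log_pow]
      norm_num
    have h3 := Real.log_two_gt_d9
    have h4 := Real.exp_one_lt_d9
    linarith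
  have hLpos : 0 < L := lt_of_lt_of_le (Real.exp_pos 1) hL1
  have hLge1 : 1 ≤ L := by
    have := Real.add_one_le_exp (1 : ℝ)
    linarith
  have hLL1 : 1 ≤ LL := by
    rw [hLL, ← Real.log_exp 1]
    exact Real.log_le_log (Real.exp_pos 1) hL1
  have hYpos : (0 : ℝ) ≤ Y := Nat.cast_nonneg Y
  obtain ⟨hh'1, hh'Y⟩ := Finset.mem_Icc.1 hh'
  have htpos : (0 : ℝ) < t := by
    have : 0 < t := by omega
    exact_mod_cast this
  set S : Finset ℕ := (ZZ Y t w Bd).filter (fun h => h ≠ h') with hS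
  have hSI : ∀ h ∈ S, h ∈ Icc 1 Y ∧ h ≠ h' := by
    intro h hh
    rw [hS, mem_filter] at hh
    unfold ZZ at hh
    rw [mem_filter] at hh
    exact ⟨hh.1.1, hh.2⟩
  set P : Finset ℕ := (Icc 1 Y).filter Nat.Prime with hP
  have hPp : ∀ p ∈ P, p.Prime := fun p hp => (mem_filter.1 hp).2
  set G : Finset ℕ → ℝ := fun s => ∏ p ∈ s, gk K p with hG
  have hG0 : ∀ s ∈ P.powerset, 0 ≤ G s := fun s hs =>
    Finset.prod_nonneg fun p hp => gk_nonneg K (hPp p (mem_powerset.1 hs hp)).two_le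
  -- the sum over `s`
  have hdist : ∀ h ∈ S, Nat.dist h h' ≠ 0 ∧ Nat.dist h h' ≤ Y := by
    intro h hh
    obtain ⟨h1, h2⟩ := hSI h hh
    rw [mem_Icc] at h1
    refine ⟨fun h0 => h2 (Nat.eq_of_dist_eq_zero h0), ?_⟩
    unfold Nat.dist
    omega
  have step1 : ∑ h ∈ S, ((Nat.dist h h' : ℝ) / (Nat.totient (Nat.dist h h') : ℝ)) ^ K =
      ∑ s ∈ P.powerset, ∑ h ∈ S.filter (fun h => s ⊆ (Nat.dist h h').primeFactors), G s := by
    rw [Finset.sum_congr rfl fun h hh => ratio_pow K (hdist h hh).1]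
    refine Finset.sum_comm' fun h s => ?_
    constructor
    · rintro ⟨h1, h2⟩
      refine ⟨Finset.mem_filter.2 ⟨h1, Finset.mem_powerset.1 h2⟩,
        Finset.mem_powerset.2 fun p hp => ?_⟩
      have h3 := (Finset.mem_powerset.1 h2) hp
      have h4 := Nat.le_of_mem_primeFactors h3
      have h5 := Nat.prime_of_mem_primeFactors h3
      exact Finset.mem_filter.2
        ⟨Finset.mem_Icc.2 ⟨h5.one_lt.le, h4.trans (hdist h h1).2⟩, h5⟩
    · rintro ⟨h1, -⟩
      obtain ⟨h2, h3⟩ := Finset.mem_filter.1 h1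
      exact ⟨h2, Finset.mem_powerset.2 h3⟩
  -- the three parts
  set e : Finset ℕ → ℕ := fun s => ∏ p ∈ s, p with he
  have hepos : ∀ s ∈ P.powerset, 0 < e s := fun s hs =>
    Finset.prod_pos fun p hp => (hPp p (mem_powerset.1 hs hp)).pos
  have hcount : ∀ s ∈ P.powerset,
      ∑ h ∈ S.filter (fun h => s ⊆ (Nat.dist h h').primeFactors), G s ≤
        C * (Y * LL / L) * ∏ p ∈ s, (gk K p * (2 / ((p : ℝ) - 1))) +
          ((1 + K) * (Y / L)) * ∏ p ∈ s, (gk K p / p) +
            (2 * (Y / L)) * ∏ p ∈ s, (gk K p / Real.sqrt p) := by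
    intro s hs
    have hsP := mem_powerset.1 hs
    have hsp : ∀ p ∈ s, p.Prime := fun p hp => hPp p (hsP hp)
    have hGs := hG0 s hs
    have hes := hepos s hs
    have hesR : (0 : ℝ) < e s := by exact_mod_cast hes
    have hesc : ((e s : ℕ) : ℝ) = ∏ p ∈ s, (p : ℝ) := by
      rw [he]
      push_cast
      rfl
    have p1 : ∏ p ∈ s, (gk K p * (2 / ((p : ℝ) - 1))) =
        G s * (((e s).divisors.card : ℝ) / (Nat.totient (e s) : ℝ)) := by
      rw [Finset.prod_mul_distrib, ← tau_phi s hsp]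
    have p2 : ∏ p ∈ s, (gk K p / p) = G s / e s := by
      rw [Finset.prod_div_distrib, hesc]
    have p3 : ∏ p ∈ s, (gk K p / Real.sqrt p) = G s / Real.sqrt (e s) := by
      rw [Finset.prod_div_distrib, hesc, Real.sqrt_eq_rpow, ← Real.finsetProd_rpow]
      · simp only [← Real.sqrt_eq_rpow]
        rfl
      · intro p _
        exact Nat.cast_nonneg p
    rw [Finset.sum_const, nsmul_eq_mul, p1, p2, p3]
    set N : ℝ := ((S.filter (fun h => s ⊆ (Nat.dist h h').primeFactors)).card : ℝ) with hN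
    have hdvd : ∀ h ∈ S.filter (fun h => s ⊆ (Nat.dist h h').primeFactors),
        e s ∣ Nat.dist h h' := by
      intro h hh
      have h1 := (mem_filter.1 hh).2
      refine Finset.prod_primes_dvd _ (fun p hp => (hsp p hp).prime) fun p hp => ?_
      exact Nat.dvd_of_mem_primeFactors (h1 hp)
    have q1 : 0 ≤ G s * (((e s).divisors.card : ℝ) / (Nat.totient (e s) : ℝ)) :=
      mul_nonneg hGs (by positivity)
    have q2 : 0 ≤ G s / (e s : ℝ) := div_nonneg hGs hesR.le
    have q3 : 0 ≤ G s / Real.sqrt (e s) := div_nonneg hGs (Real.sqrt_nonneg _)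
    have r1 : 0 ≤ C * (Y * LL / L) := by positivity
    have r2 : 0 ≤ (1 + K : ℝ) * (Y / L) := by positivity
    have r3 : 0 ≤ 2 * ((Y : ℝ) / L) := by positivity
    rcases le_or_gt ((e s : ℕ) : ℝ) (L ^ 2) with hcase | hcase
    · have hza := hw1 w Y t (e s) h' hww1 hwY hY ht2 htw hes hcase Bd hBd
      have hNle : N ≤ (((ZZ Y t w Bd).filter (fun h => h ≡ h' [MOD e s])).card : ℝ) := by
        rw [hN]
        norm_cast
        refine Finset.card_le_card fun h hh => ?_
        have h1 := hdvd h hh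
        have h2 := (mem_filter.1 hh).1
        rw [hS, mem_filter] at h2
        exact mem_filter.2 ⟨h2.1, modEq_of_dvd_dist h1⟩
      have hBY : (Bd.card : ℝ) * (Y / t) ≤ K * (Y / L ^ 3) := by
        calc (Bd.card : ℝ) * (Y / t) ≤ (K * L) * (Y / L ^ 4) := by
              apply mul_le_mul hBdc _ (by positivity) (by positivity)
              exact div_le_div_of_nonneg_left hYpos (by positivity) htL
          _ = K * (Y / L ^ 3) := by
              field_simp
      have hN2 : N ≤ C * (((e s).divisors.card : ℝ) / (Nat.totient (e s) : ℝ) * Y * LL / L) +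
          (1 + K) * (Y / L ^ 3) := by
        refine hNle.trans (hza.trans ?_)
        have : (1 + K : ℝ) * (Y / L ^ 3) = Y / L ^ 3 + K * (Y / L ^ 3) := by ring
        rw [this]
        linarith
      have h3 : (Y : ℝ) / L ^ 3 ≤ (Y / L) / e s := by
        rw [div_div]
        apply div_le_div_of_nonneg_left hYpos (by positivity)
        calc L * (e s : ℝ) ≤ L * L ^ 2 := mul_le_mul_of_nonneg_left hcase hLpos.le
          _ = L ^ 3 := by ring
      have h4 : N * G s ≤ (C * (((e s).divisors.card : ℝ) / (Nat.totient (e s) : ℝ) * Y * LL / L) +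
          (1 + K) * ((Y / L) / e s)) * G s := by
        apply mul_le_mul_of_nonneg_right _ hGs
        refine hN2.trans ?_
        have : (1 + K : ℝ) * (Y / L ^ 3) ≤ (1 + K) * ((Y / L) / e s) :=
          mul_le_mul_of_nonneg_left h3 (by positivity)
        linarith
      have h5 := mul_nonneg r3 q3
      calc N * G s ≤ _ := h4
        _ = C * (Y * LL / L) * (G s * (((e s).divisors.card : ℝ) / (Nat.totient (e s) : ℝ))) +
          (1 + K) * (Y / L) * (G s / (e s : ℝ)) := by ring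
        _ ≤ _ := by linarith
    · have hNle : N ≤ 2 * ((Y : ℝ) / e s) := by
        refine le_trans ?_ (triv Y (e s) h' hh'Y)
        rw [hN]
        norm_cast
        refine Finset.card_le_card fun h hh => ?_
        have h1 := hdvd h hh
        have h2 := hSI h (mem_filter.1 hh).1
        exact mem_filter.2 ⟨h2.1, h2.2, h1⟩
      have hsq : L ≤ Real.sqrt (e s) := Real.le_sqrt_of_sq_le hcase.le
      have hsqpos : 0 < Real.sqrt (e s) := lt_of_lt_of_le hLpos hsq
      have h3 : (Y : ℝ) / e s ≤ (Y / L) / Real.sqrt (e s) := by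
        rw [div_div]
        apply div_le_div_of_nonneg_left hYpos (by positivity)
        calc L * Real.sqrt (e s) ≤ Real.sqrt (e s) * Real.sqrt (e s) :=
              mul_le_mul_of_nonneg_right hsq hsqpos.le
          _ = e s := Real.mul_self_sqrt hesR.le
      have h4 : N * G s ≤ (2 * ((Y / L) / Real.sqrt (e s))) * G s := by
        apply mul_le_mul_of_nonneg_right _ hGs
        linarith
      have h5 := mul_nonneg r1 q1
      have h6 := mul_nonneg r2 q2
      calc N * G s ≤ _ := h4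
        _ = 2 * (Y / L) * (G s / Real.sqrt (e s)) := by ring
        _ ≤ _ := by linarith
  rw [step1]
  refine (Finset.sum_le_sum hcount).trans ?_
  rw [Finset.sum_add_distrib, Finset.sum_add_distrib, ← Finset.mul_sum, ← Finset.mul_sum,
    ← Finset.mul_sum]
  have hp2 : ∀ p ∈ P, (2 : ℝ) ≤ p := fun p hp => by exact_mod_cast (hPp p hp).two_le
  have hsqp : ∀ p ∈ P, 0 < Real.sqrt p ∧ Real.sqrt p ≤ p := fun p hp =>
    ⟨Real.sqrt_pos.2 (by have := hp2 p hp; linarith), sqrt_le_self' (hPp p hp).two_le⟩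
  have b1 : ∑ s ∈ P.powerset, ∏ p ∈ s, (gk K p * (2 / ((p : ℝ) - 1))) ≤ E1 := by
    refine euler (fun p hp => ?_) (fun p hp => ?_) (by positivity)
    · have := hp2 p hp
      exact mul_nonneg (gk_nonneg K (hPp p hp).two_le) (div_nonneg (by norm_num) (by linarith))
    · have h2 := hp2 p hp
      obtain ⟨h3, h4⟩ := hsqp p hp
      have h5 := gk_le K (hPp p hp).two_le
      have h6 := inv_sub_le (hPp p hp).two_le
      have h7 : 2 / ((p : ℝ) - 1) ≤ 4 / p := by
        have e1 : 2 / ((p : ℝ) - 1) = 2 * (1 / ((p : ℝ) - 1)) := by ring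
        have e2 : (4 : ℝ) / p = 2 * (2 / p) := by ring
        rw [e1, e2]
        linarith
      calc gk K p * (2 / ((p : ℝ) - 1)) ≤ (2 ^ (K + 1) / p) * (4 / p) := by
            apply mul_le_mul h5 h7 (div_nonneg (by norm_num) (by linarith)) (by positivity)
        _ = 2 ^ (K + 3) / ((p : ℝ) * p) := by
            rw [pow_add 2 K 1, pow_add 2 K 3]
            field_simp
            norm_num
        _ ≤ 2 ^ (K + 3) / ((p : ℝ) * Real.sqrt p) := by
            apply div_le_div_of_nonneg_left (by positivity) (by positivity)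
            apply mul_le_mul_of_nonneg_left h4 (by linarith)
  have b2 : ∑ s ∈ P.powerset, ∏ p ∈ s, (gk K p / p) ≤ E2 := by
    refine euler (fun p hp => ?_) (fun p hp => ?_) (by positivity)
    · exact div_nonneg (gk_nonneg K (hPp p hp).two_le) (Nat.cast_nonneg p)
    · have h2 := hp2 p hp
      obtain ⟨h3, h4⟩ := hsqp p hp
      have h5 := gk_le K (hPp p hp).two_le
      calc gk K p / p ≤ (2 ^ (K + 1) / p) / p := by
            apply div_le_div_of_nonneg_right h5 (by linarith)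
        _ = 2 ^ (K + 1) / ((p : ℝ) * p) := by rw [div_div]
        _ ≤ 2 ^ (K + 1) / ((p : ℝ) * Real.sqrt p) := by
            apply div_le_div_of_nonneg_left (by positivity) (by positivity)
            apply mul_le_mul_of_nonneg_left h4 (by linarith)
  have b3 : ∑ s ∈ P.powerset, ∏ p ∈ s, (gk K p / Real.sqrt p) ≤ E2 := by
    refine euler (fun p hp => ?_) (fun p hp => ?_) (by positivity)
    · exact div_nonneg (gk_nonneg K (hPp p hp).two_le) (Real.sqrt_nonneg _)
    · have h2 := hp2 p hp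
      obtain ⟨h3, h4⟩ := hsqp p hp
      have h5 := gk_le K (hPp p hp).two_le
      calc gk K p / Real.sqrt p ≤ (2 ^ (K + 1) / p) / Real.sqrt p := by
            apply div_le_div_of_nonneg_right h5 h3.le
        _ = 2 ^ (K + 1) / ((p : ℝ) * Real.sqrt p) := by rw [div_div]
  have hYL : (0 : ℝ) ≤ Y / L := by positivity
  have hYLL : (Y : ℝ) / L ≤ Y * LL / L := by
    apply div_le_div_of_nonneg_right _ hLpos.le
    nlinarith
  have t1 : C * (Y * LL / L) * ∑ s ∈ P.powerset, ∏ p ∈ s, (gk K p * (2 / ((p : ℝ) - 1))) ≤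
      C * (Y * LL / L) * E1 := mul_le_mul_of_nonneg_left b1 (by positivity)
  have t2 : (1 + K : ℝ) * (Y / L) * ∑ s ∈ P.powerset, ∏ p ∈ s, (gk K p / p) ≤
      (1 + K) * (Y * LL / L) * E2 := by
    apply mul_le_mul _ b2 (Finset.sum_nonneg fun s hs => Finset.prod_nonneg fun p hp => ?_)
      (by positivity)
    · exact mul_le_mul_of_nonneg_left hYLL (by positivity)
    · exact div_nonneg (gk_nonneg K (hPp p (mem_powerset.1 hs hp)).two_le) (Nat.cast_nonneg p)
  have t3 : 2 * ((Y : ℝ) / L) * ∑ s ∈ P.powerset, ∏ p ∈ s, (gk K p / Real.sqrt p) ≤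
      2 * (Y * LL / L) * E2 := by
    apply mul_le_mul _ b3 (Finset.sum_nonneg fun s hs => Finset.prod_nonneg fun p hp => ?_)
      (by positivity)
    · exact mul_le_mul_of_nonneg_left hYLL (by positivity)
    · exact div_nonneg (gk_nonneg K (hPp p (mem_powerset.1 hs hp)).two_le) (Real.sqrt_nonneg _)
  calc _ ≤ C * (Y * LL / L) * E1 + (1 + K) * (Y * LL / L) * E2 + 2 * (Y * LL / L) * E2 :=
        add_le_add (add_le_add t1 t2) t3
    _ = (C * E1 + (1 + K) * E2 + 2 * E2) * (Y * LL / L) := by ring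

end Pool.Agent.Helper41.MC
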